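import Mathlib
import Pool.Agent.H69.FlowDefs
import Pool.Agent.H69.FlowProof

/-!
# Real flow roots: bounded above if and only if some interval is free of them

The definitions are in `Pool/Agent/H69/FlowDefs.lean`, the proof in
`Pool/Agent/H69/FlowProof.lean`.

Outline.  With `zp = X ^ |V| * fp`, the multiplication identity `zp_mul` shows that the set of
points where no graph is negative is closed under products, and that a product of an interval
of such points with such a point contains no root.  If an interval in `(2, ∞)` has no root and
some graph is negative there, take such a graph with fewest edges and an edge `e`; gluing copies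
of the graph without `e` in parallel, together with parallel edges, produces a sign change
inside the interval unless a certain exponent is constant, which a degree comparison excludes.
-/

set_option autoImplicit false

namespace Pool.Agent.Results.MP_621cbe_co.BoundedIffGap

open Pool.Agent.H69.Flow

/-- If no flow root lies in `(x, y)`, where `2 ≤ x < y`, then every flow root is at most
`exp (log x * log y / (log y - log x))`; hence the flow roots are bounded above if and only if
some open interval of positive length contained in the half-line from `2` has no flow root. -/
theorem result :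
    (∀ x y : ℝ, 2 ≤ x → x < y → (∀ r ∈ flowRoots, r ∉ Set.Ioo x y) → ∀ r ∈ flowRoots,
      r ≤ Real.exp (Real.log x * Real.log y / (Real.log y - Real.log x))) ∧
    (BddAbove flowRoots ↔
      ∃ x y : ℝ, 2 ≤ x ∧ x < y ∧ ∀ r ∈ flowRoots, r ∉ Set.Ioo x y) := by
  have main : ∀ x y : ℝ, 2 ≤ x → x < y → (∀ r ∈ flowRoots, r ∉ Set.Ioo x y) → ∀ r ∈ flowRoots,
      r ≤ Real.exp (Real.log x * Real.log y / (Real.log y - Real.log x)) := by
    intro x y hx hxy h r hr
    exact bounded_of_good (by linarith) hxy (good_of_gap hx hxy h) h r hr
  refine ⟨main, ?_, ?_⟩
  · rintro ⟨C, hC⟩
    refine ⟨max C 2, max C 2 + 1, le_max_right _ _, by linarith, ?_⟩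
    intro r hr hr2
    have h1 := hC hr
    have h2 := le_max_left C 2
    have h3 := hr2.1
    linarith
  · rintro ⟨x, y, hx, hxy, h⟩
    exact ⟨_, fun r hr => main x y hx hxy h r hr⟩

end Pool.Agent.Results.MP_621cbe_co.BoundedIffGap
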