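import Mathlib
import Pool.Agent.H69.FlowDefs
import Pool.Agent.H69Cubic.Assembly
import Pool.Agent.LibFR89.C5

/-!
# Real flow roots are dense in `[2, 4 + 2 √2]`

The definitions are in `Pool/Agent/H69/FlowDefs.lean`.

Outline.  The sum of the flow polynomials of all multigraphs with `2 N` vertices of degree three
(given by lists of `3 N` edges) is a positive multiple of an explicit number `RR N lam`
(`Pool/Agent/H69Cubic`, `cubicSum_formula`).  The numbers `RR N lam` are the coefficients of the
asymptotic expansion of an integral over the power `lam` of the Airy function; by Cauchy's theorem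
in the sector `0 ≤ arg ≤ π / 3` they are the difference of a typical term and of a term that comes
from the negative zeros of the Airy function (`Pool/Agent/LibFR89`).  For `lam < 4 + 2 √2`, not an
integer, the second term dominates for large `N` and gives `RR N lam < 0` for all large `N` of one
parity.  So some cubic multigraph has a negative value at `lam`, and the gap lemma of the hand-in
`BoundedIffGap` gives flow roots in every neighbourhood of `lam`.
-/

set_option autoImplicit false

namespace Pool.Agent.Results.MP_621cbe_co.DenseRoots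

open Pool.Agent.H69.Flow Pool.Agent.H69Cubic

/-- For every real `lam` in `(2, 4 + 2 √2)` that is not an integer there are arbitrarily large
cubic multigraphs whose flow polynomial is negative at `lam`. -/
theorem cubic_negative (lam : ℝ) (h2 : 2 < lam) (h3 : lam < 4 + 2 * √2) (hn : ∀ n : ℤ, lam ≠ n)
    (M : ℕ) : ∃ N : ℕ, M ≤ N ∧ ∃ f : Fin (3 * N) → Fin (2 * N) × Fin (2 * N),
      (∀ v, deg f v = 3) ∧ (zp (fun e => (f e).1) (fun e => (f e).2)).eval lam < 0 := by
  have hsin : Real.sin (Real.pi * lam) ≠ 0 := by
    intro h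
    rw [Real.sin_eq_zero_iff] at h
    obtain ⟨n, h⟩ := h
    apply hn n
    have h2 : Real.pi * (n : ℝ) = Real.pi * lam := by rw [← h]; ring
    exact (mul_left_cancel₀ Real.pi_pos.ne' h2).symm
  obtain ⟨N, hN, h⟩ := LibFR89.RR_neg lam h2 h3 hsin M
  exact ⟨N, hN, exists_neg N lam (by linarith) h⟩

/-- The real flow roots of finite multigraphs are dense in `[2, 4 + 2 √2]`. -/
theorem result : Set.Icc 2 (4 + 2 * √2) ⊆ closure flowRoots := by
  have h02 : (0 : ℝ) < √2 := Real.sqrt_pos.2 (by norm_num)
  intro x hx
  have hx1 := hx.1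
  have hx2 := hx.2
  -- non-integer points of the open interval are in the closure
  have hpt : ∀ lam : ℝ, 2 < lam → lam < 4 + 2 * √2 → (∀ n : ℤ, lam ≠ n) →
      lam ∈ closure flowRoots := by
    intro lam h2 h3 hn
    obtain ⟨N, _, f, _, h⟩ := cubic_negative lam h2 h3 hn 0
    obtain ⟨a, b, ha, hb, hab⟩ := dense_near lam h2 _ _ h
    exact hab ⟨ha.le, hb.le⟩
  rw [← closure_closure, Metric.mem_closure_iff]
  intro ε hε
  -- a non-integer point of the open interval within ε of x
  have h1 : (Set.Ioo (max 2 (x - ε)) (min (4 + 2 * √2) (x + ε))).Nonempty := by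
    rw [Set.nonempty_Ioo, max_lt_iff, lt_min_iff, lt_min_iff]
    refine ⟨⟨?_, ?_⟩, ?_, ?_⟩ <;> linarith
  have h2 : (Set.Ioo (max 2 (x - ε)) (min (4 + 2 * √2) (x + ε)) \
      Set.range (fun n : ℤ => (n : ℝ))).Nonempty := by
    by_contra hcon
    rw [Set.not_nonempty_iff_eq_empty, Set.sdiff_eq_empty] at hcon
    have h3 : (Set.Ioo (max 2 (x - ε)) (min (4 + 2 * √2) (x + ε))).Countable :=
      (Set.countable_range _).mono hcon
    rw [Set.nonempty_Ioo] at h1
    exact absurd h1 (not_lt.2 (Cardinal.Real.Ioo_countable_iff.1 h3))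
  obtain ⟨y, ⟨hy1, hy2⟩, hy3⟩ := h2
  rw [max_lt_iff] at hy1
  rw [lt_min_iff] at hy2
  refine ⟨y, hpt y hy1.1 hy2.1 ?_, ?_⟩
  · intro n hn
    exact hy3 ⟨n, hn.symm⟩
  · rw [Real.dist_eq, abs_lt]
    constructor
    · linarith [hy2.2]
    · linarith [hy1.2]

end Pool.Agent.Results.MP_621cbe_co.DenseRoots
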