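import Mathlib
import Pool.Agent.LibFE4.G4

/-!
# Flow roots of graphs of conductance at least `ε`

The flow polynomial `fp` is that of `Pool.Agent.H69.FlowDefs`; `vol`, `bd` are defined in
`Pool.Agent.LibFE4.Defs` and `Cond` in `Pool.Agent.LibFE4.G2`.

Outline.  Bridges make `fp` zero, an edge of a 2-edge-cut can be contracted (the conductance does
not decrease), so the graph may be assumed 3-edge-connected.  In the Potts form with a formal
number `z` of colours, the polymers are the components of the set of vertices which do not have
the first colour; a Kotecky-Preiss induction shows that their partition function `Phi` is at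
least `2 ^ (-|V|)`.  The difference of `z ^ |V| * fp` and `z * (z - 1) ^ |E| * Phi` is a sum over
the edge sets without a component of more than half of the volume; each term is at most
`2 * (|z| + 2) ^ (|E| + 1 - ε |E| / 3)`.
-/

set_option autoImplicit false

namespace Pool.Agent.Results.MP_621cbe_co.ExpanderRoots

open Pool.Agent.H69.Flow Pool.Agent.LibFE4

/-- If every vertex set with at most half of the volume has at least `ε` times its volume
boundary edges and the flow polynomial is not zero, then every complex root `z` of the flow
polynomial satisfies `|z| ≤ 2 ^ (18 / ε)`. -/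
theorem result (ε : ℝ) (hε0 : 0 < ε) (hε1 : ε ≤ 1) (V E : Type) [Fintype V] [Fintype E]
    (s t : E → V) (hc : Cond ε s t) (h0 : fp s t ≠ 0) (z : ℂ)
    (hz : ((fp s t).map (algebraMap ℝ ℂ)).eval z = 0) :
    ‖z‖ ≤ (2 : ℝ) ^ (18 / ε) :=
  main_all ε hε0 hε1 _ V E _ _ s t rfl h0 hc z hz

end Pool.Agent.Results.MP_621cbe_co.ExpanderRoots
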