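import Mathlib
import Pool.Agent.LibLC4.A1

/-!
# Flow roots of graphs without small cuts

The flow polynomial `fp` is that of `Pool.Agent.H69.FlowDefs`, `bd s t S` (the number of edges with
exactly one end in `S`) is defined in `Pool.Agent.LibFE4.Defs`.

Outline.  For `ζ = -1 / (z - 1)` one has `z ^ |V| * fp(z) = (z - 1) ^ |E| * ∑ k, C(z, k) * s_k(ζ)`,
where `s_k(ζ)` is the sum over the surjections `x : V → Fin k` of `ζ ^ #{e | x (s e) ≠ x (t e)}`.
The term `k = 1` is `z`.  The sum `g(a) = ∑ k, C(y + k - 1, k) * s_k(a)` with `y = |z|`,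
`a = 1 / |z - 1|` satisfies `a * g' = ∑ e, (g_G - g_{G / e})`, the sum over the edges which are not
loops, of which there are at least `n * l`; an induction on `n` gives `g(a) ≤ h_n(a ^ l)` for the
solution of `u * h_n' = n * (h_n - h_{n-1})` with `h_n(1) ≥ g(1)`.
-/

set_option autoImplicit false

namespace Pool.Agent.Results.MP_621cbe_co.LargeCuts

open Pool.Agent.H69.Flow Pool.Agent.LibFE4 Pool.Agent.LibLC4

/-- If every cut has at least `2 * l` edges and `11 * (r + 2) * |V| ≤ r ^ l` for a real number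
`r > 1`, then every complex root `z` of the flow polynomial satisfies `|z - 1| < r`. -/
theorem result (V E : Type) [Fintype V] [Fintype E] (s t : E → V) (l : ℕ) (r : ℝ) (hr : 1 < r)
    (hd : ∀ S : Finset V, S.Nonempty → S ≠ Finset.univ → 2 * l ≤ bd s t S)
    (hn : 11 * (r + 2) * Fintype.card V ≤ r ^ l) (z : ℂ)
    (hz : ((fp s t).map (algebraMap ℝ ℂ)).eval z = 0) : ‖z - 1‖ < r :=
  main s t l r hr hd hn z hz

end Pool.Agent.Results.MP_621cbe_co.LargeCuts
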